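import Pool.Agent.MP_ea150c_mp.H16.FSpec

/-! Row ExC: the Cech complex of a frame exists. -/

namespace Pool.Agent.MP_ea150c_mp.H1

open Pool.Agent.MP_ea150c_mp.H49 Pool.Agent.MP_ea150c_mp.H16

noncomputable section

section Gen
variable {O E E' I : Type} [CommRing O] [AddCommGroup E] [Module O E] [AddCommGroup E']
  [Module O E'] [LinearOrder I]

/-- The sign map on cochains. -/
def sg (O E I : Type) [CommRing O] [AddCommGroup E] [Module O E] :
    (Finset I → E) →ₗ[O] (Finset I → E) where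
  toFun x J := ((-1 : O) ^ (J.card + 1)) • x J
  map_add' a b := by ext J; simp
  map_smul' c a := by
    ext J; simp only [Pi.smul_apply, RingHom.id_apply]
    exact smul_comm _ _ _

omit [LinearOrder I] in
theorem sg_apply (x : Finset I → E) (J : Finset I) :
    sg O E I x J = ((-1 : O) ^ (J.card + 1)) • x J := rfl

theorem dl_app (x : Finset I → E) (J : Finset I) :
    dl O E x J = ∑ j ∈ J, ((-1 : O) ^ (J.filter (· < j)).card) • x (J.erase j) := rfl

omit [LinearOrder I] in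
theorem sg_sg (x : Finset I → E) : sg O E I (sg O E I x) = x := by
  funext J
  rw [sg_apply, sg_apply, smul_smul, ← mul_pow]
  simp

theorem sg_dl (x : Finset I → E) : sg O E I (dl O E x) = -dl O E (sg O E I x) := by
  funext J
  rw [sg_apply, Pi.neg_apply, dl_app, dl_app, Finset.smul_sum, ← Finset.sum_neg_distrib]
  refine Finset.sum_congr rfl fun j hj => ?_
  rw [sg_apply, Finset.card_erase_add_one hj, smul_smul, smul_smul, ← neg_smul]
  congr 1
  ring

theorem sg_mem {M : Finset I → Submodule O E} {x : Finset I → E} (hx : x ∈ Coch M) :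
    sg O E I x ∈ Coch M :=
  ⟨by rw [sg_apply, hx.1, smul_zero], fun J => (M J).smul_mem _ (hx.2 J)⟩

theorem map_mem_coch {M : Finset I → Submodule O E} {M' : Finset I → Submodule O E'}
    (f : E →ₗ[O] E') (h : ∀ J, ∀ y ∈ M J, f y ∈ M' J) {x : Finset I → E} (hx : x ∈ Coch M) :
    f.compLeft (Finset I) x ∈ Coch M' :=
  ⟨by
    show f (x ∅) = 0
    rw [hx.1, map_zero], fun J => h J _ (hx.2 J)⟩

theorem map_dl (f : E →ₗ[O] E') (x : Finset I → E) :
    f.compLeft (Finset I) (dl O E x) = dl O E' (f.compLeft (Finset I) x) := by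
  funext J
  show f (dl O E x J) = _
  rw [dl_app, dl_app, map_sum]
  refine Finset.sum_congr rfl fun j _ => ?_
  rw [map_smul]
  rfl

omit [LinearOrder I] in
theorem map_sg (f : E →ₗ[O] E') (x : Finset I → E) :
    f.compLeft (Finset I) (sg O E I x) = sg O E' I (f.compLeft (Finset I) x) := by
  funext J
  show f (sg O E I x J) = _
  rw [sg_apply, sg_apply, map_smul]
  rfl

theorem coch_sat {M M' : Finset I → Submodule O E} (c : O)
    (h : ∀ J, J.Nonempty → ∀ y ∈ M J, c • y ∈ M' J → y ∈ M' J) {x : Finset I → E}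
    (hx : x ∈ Coch M) (hc : c • x ∈ Coch M') : x ∈ Coch M' := by
  refine ⟨hx.1, fun J => ?_⟩
  rcases J.eq_empty_or_nonempty with rfl | hJ
  · rw [hx.1]; exact Submodule.zero_mem _
  · exact h J hJ _ (hx.2 J) (hc.2 J)

theorem coch_le {M M' : Finset I → Submodule O E} (h : ∀ J, M J ≤ M' J) : Coch M ≤ Coch M' :=
  fun _ hx => ⟨hx.1, fun J => h J (hx.2 J)⟩

end Gen

section Fr
variable {p : ℕ} [Fact p.Prime] {A B Γ I ι : Type} {σ : I → Type}
  [CommRing A] [Algebra ℤ_[p] A] [AddCommGroup B] [Module A B] [Module ℤ_[p] B]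
  [IsScalarTower ℤ_[p] A B] [AddCommGroup Γ] [LinearOrder I] [Fintype I] [Fintype ι]
  [DecidableEq ι] [∀ j, Fintype (σ j)] [∀ j, DecidableEq (σ j)]
  (F : FrameData p A B Γ I ι σ)

theorem lt_mono (hL : F.AxL) (f1 : F.F1) (m : ℕ) (J J' : Finset I) (h : J ⊆ J') :
    F.Lt J m ≤ F.Lt J' m := by
  intro z hz
  refine ⟨f1.1 J J' 0 m m h le_rfl hz.1, fun i hi => ?_⟩
  have := hz.2 i hi
  by_cases hm : m = 0
  · simpa [hm] using this
  · simp only [hm, if_false] at this ⊢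
    exact hL.monoL J J' 0 _ h this

theorem dLt_mem (hL : F.AxL) (f1 : F.F1) (m : ℕ) (J : Finset I) :
    ∀ z ∈ F.Lt J m, F.dLt z ∈ F.Bl J 0 m := by
  intro z hz
  show z.1 1 + ∑ i, F.th i (z.2 i) ∈ F.Bl J 0 m
  refine Submodule.add_mem _ ?_ (Submodule.sum_mem _ fun i _ => ?_)
  · have := f1.2.2.1 J J 0 0 m z.1 1 le_rfl hz.1 (hL.one J)
    simpa using this
  · have := hz.2 i (Set.mem_univ i)
    by_cases hm : m = 0
    · simp only [hm, if_true, SetLike.mem_coe, Submodule.mem_bot] at this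
      rw [this, map_zero]; exact Submodule.zero_mem _
    · simp only [hm, if_false] at this
      have h2 := hL.thL i J 0 _ _ this
      rwa [Nat.sub_add_cancel (Nat.one_le_iff_ne_zero.2 hm)] at h2

theorem lt_sat (hL : F.AxL) (f2 : F.F2) (m : ℕ) (J : Finset I) (hJ : J.Nonempty) :
    ∀ z ∈ F.Lt J m, (p : ℤ_[p]) • z ∈ F.Lt J 1 → z ∈ F.Lt J 1 := by
  intro z hz hp
  refine ⟨f2.2.2.2.1 J 0 m 1 z.1 hJ hz.1 hp.1, fun i hi => ?_⟩
  have h1 := hz.2 i hi
  have h2 := hp.2 i hi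
  simp only [one_ne_zero, if_false] at h2 ⊢
  refine hL.sat J 0 _ _ ?_ h2
  by_cases hm : m = 0
  · simp only [hm, if_true, SetLike.mem_coe, Submodule.mem_bot] at h1
    rw [h1]; exact Submodule.zero_mem _
  · simp only [hm, if_false] at h1
    exact hL.le J 0 _ h1

theorem tfY (hL : F.AxL) (x : Finset I → (A →ₗ[ℤ_[p]] B) × (ι → B))
    (h : (p : ℤ_[p]) • x = 0) : x = 0 := by
  funext J
  have hJ : (p : ℤ_[p]) • x J = 0 := congrFun h J
  refine Prod.ext ?_ ?_
  · ext a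
    exact hL.tf _ (congrArg (fun z : (A →ₗ[ℤ_[p]] B) × (ι → B) => z.1 a) hJ)
  · funext i
    exact hL.tf _ (congrArg (fun z : (A →ₗ[ℤ_[p]] B) × (ι → B) => z.2 i) hJ)

end Fr

theorem exC (c1 : C1) : ExC := by
  intro p _ A B Γ I ι σ _ _ _ _ _ _ _ _ _ _ _ _ _ _ F _ hL _ f1 f2 _ _ M _
  have dB : ∀ l, ∀ x ∈ F.CB l, dl ℤ_[p] B x ∈ F.CB l := fun l =>
    (c1 ℤ_[p] B I).2.2 _ fun J J' h => hL.monoL J J' 0 l h
  have dL : ∀ l, ∀ x ∈ CLt F l, dl ℤ_[p] _ x ∈ CLt F l := fun l =>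
    (c1 ℤ_[p] _ I).2.2 _ (lt_mono F hL f1 l)
  have dX : ∀ x ∈ CXm F M, dl ℤ_[p] _ x ∈ CXm F M :=
    (c1 ℤ_[p] _ I).2.2 _ fun J J' h => f1.2.2.2.2.2.2.2.2.2.1 J J' M M h le_rfl
  have bd : ∀ l, ∀ x ∈ CLt F l, F.dLt.compLeft (Finset I) x ∈ F.CB l := fun l _ hx =>
    map_mem_coch F.dLt (dLt_mem F hL f1 l) hx
  have inc : CXm F M ≤ CLt F M := coch_le fun J => f1.2.2.2.2.2.2.2.1 J M
  refine ⟨⟨(dl ℤ_[p] B).restrict (dB M), (dl ℤ_[p] _).restrict (dL M), (dl ℤ_[p] _).restrict dX,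
    (sg ℤ_[p] B I).restrict fun _ hx => sg_mem hx, (sg ℤ_[p] _ I).restrict fun _ hx => sg_mem hx,
    (sg ℤ_[p] _ I).restrict fun _ hx => sg_mem hx,
    (F.dLt.compLeft (Finset I)).restrict (bd M), Submodule.inclusion inc,
    (F.CB 0).comap (F.CB M).subtype, (F.CB 1).comap (F.CB M).subtype,
    F.CL.comap (CLt F M).subtype⟩,
    ⟨fun _ => rfl, fun _ => rfl, fun _ => rfl, fun _ _ => rfl, fun _ _ => rfl, fun _ _ => rfl,
      fun _ _ => rfl, fun _ => rfl, fun _ => Iff.rfl, fun _ => Iff.rfl, fun _ => Iff.rfl⟩,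
    { ssB := fun x => Subtype.ext (sg_sg x.1)
      ssL := fun x => Subtype.ext (sg_sg x.1)
      ssX := fun x => Subtype.ext (sg_sg x.1)
      sdB := fun x => Subtype.ext (sg_dl x.1)
      sdL := fun x => Subtype.ext (sg_dl x.1)
      sdX := fun x => Subtype.ext (sg_dl x.1)
      ddB := fun x => Subtype.ext ((c1 ℤ_[p] _ I).1 x.1)
      ddL := fun x => Subtype.ext ((c1 ℤ_[p] _ I).1 x.1)
      ddX := fun x => Subtype.ext ((c1 ℤ_[p] _ I).1 x.1)
      bdd := fun x => Subtype.ext (map_dl F.dLt x.1)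
      bds := fun x => Subtype.ext (map_sg F.dLt x.1)
      incd := fun _ => rfl
      incs := fun _ => rfl
      bdinc := fun x => Subtype.ext (funext fun J => f1.2.2.2.2.2.2.2.2.1 J M _ (x.2.2 J))
      le01 := Submodule.comap_mono (coch_le fun J => hL.lev J 0 0 1 (Nat.zero_le 1))
      s0 := fun _ hx => sg_mem hx
      s1 := fun _ hx => sg_mem hx
      sL1 := fun _ hx => sg_mem hx
      d0 := fun x hx => dB 0 x.1 hx
      d1 := fun x hx => dB 1 x.1 hx
      dL1 := fun x hx => dL 1 x.1 hx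
      bd1 := fun x hx => bd 1 x.1 hx
      sat0 := fun x hx => coch_sat (p : ℤ_[p])
        (fun J _ y hy h => hL.sat J 0 0 y (hL.le J 0 M hy) h) x.2 hx
      sat1 := fun x hx => coch_sat (p : ℤ_[p])
        (fun J _ y hy h => hL.sat J 0 1 y (hL.le J 0 M hy) h) x.2 hx
      satL := fun x hx => coch_sat (p : ℤ_[p]) (lt_sat F hL f2 M) x.2 hx
      tfL := fun x hx => Subtype.ext (tfY F hL x.1 (congrArg Subtype.val hx))
      tfX := fun x hx => Subtype.ext (tfY F hL x.1 (congrArg Subtype.val hx)) }⟩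

end

end Pool.Agent.MP_ea150c_mp.H1
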